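import Pool.Agent.BEW.StmtsF
import Pool.Agent.Helper69_BEL.Pic
import Pool.Agent.Helper39_BEL.GRQ
import Pool.Agent.Helper92_BEL.MLP

/-!
# Squad BEW, row LNF: the linearized flow (as `Helper68_BEL/FLE.lean`)
-/

set_option autoImplicit false

open MeasureTheory Filter Topology Set
open scoped InnerProductSpace ENNReal NNReal
open Pool.Agent.BE01 Pool.Agent.BEL Pool.Agent.BEG Pool.Agent.BEH Pool.Agent.BER

namespace Pool.Agent.BEW.H88

theorem norm_P2_le {H : Type} [NormedAddCommGroup H] [InnerProductSpace ℝ H] (z : KK H) :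
    ‖P2 z‖ ≤ ‖z‖ := by
  have h := WithLp.prod_norm_sq_eq_of_L2 z
  have h1 : ‖z.snd‖ ^ 2 ≤ ‖z‖ ^ 2 := by
    rw [h]
    nlinarith [sq_nonneg ‖z.fst‖]
  exact (sq_le_sq₀ (norm_nonneg _) (norm_nonneg _)).1 h1

theorem lnf (slo : SloStmt) : LnfStmt := by
  intro X _ μ _ e om W g g' K v Y0 hG hg hg'c hg0 hgK hg00 hv
  obtain ⟨-, -, hn, -, hct, hct2, -, hinj⟩ := Pool.Agent.BEL.H39.grq (Lp ℝ 2 μ) ℕ e om W hG
  obtain ⟨-, -, -, hcont⟩ := slo X μ g g' K v hg hg'c hg0 hgK hg00 hv
  have hdist : ∀ t (x y : KK (Lp ℝ 2 μ)), dist (W t x) (W t y) = dist x y := by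
    intro t x y
    rw [dist_eq_norm, dist_eq_norm, ← map_sub, hn]
  have hmeas : ∀ t, Measurable fun x => g' (v t x) := fun t =>
    hg'c.measurable.comp (Lp.stronglyMeasurable (v t)).measurable
  have hbd : ∀ t x, |g' (v t x)| ≤ (K : ℝ) := by
    intro t x
    rw [abs_of_nonneg (hg0 _)]
    exact hgK _
  have hF : ∀ t, LipschitzWith K fun y : Lp ℝ 2 μ => ml μ (fun x => g' (v t x)) y := by
    intro t
    obtain ⟨-, h2, h3, h4, -, -⟩ := Pool.Agent.BEL.H92.mlp X μ (fun x => g' (v t x)) K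
      (hmeas t) (hbd t)
    apply LipschitzWith.of_dist_le_mul
    intro x y
    have e1 : ml μ (fun x => g' (v t x)) x - ml μ (fun x => g' (v t x)) y =
        ml μ (fun x => g' (v t x)) (x - y) := by
      have e2 := h3 (x - y) y
      rw [sub_add_cancel] at e2
      rw [e2, add_sub_cancel_right]
    rw [dist_eq_norm, dist_eq_norm, e1]
    exact h2 (x - y)
  have hLip : ∀ t, LipschitzWith K fun x =>
      -(W (-t) (inj (ml μ (fun x => g' (v t x)) (P2 (W t x))))) := by
    intro t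
    apply LipschitzWith.of_dist_le_mul
    intro x y
    rw [dist_neg_neg, hdist, dist_eq_norm, ← map_sub, hinj, ← dist_eq_norm]
    refine ((hF t).dist_le_mul _ _).trans ?_
    refine mul_le_mul_of_nonneg_left ?_ K.2
    rw [dist_eq_norm, ← map_sub]
    refine (norm_P2_le _).trans ?_
    rw [← dist_eq_norm, hdist]
  have hCont : ∀ x, Continuous fun t =>
      -(W (-t) (inj (ml μ (fun x => g' (v t x)) (P2 (W t x))))) := by
    intro x
    have e1 : Continuous fun t => inj (ml μ (fun x => g' (v t x)) (P2 (W t x))) :=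
      inj.continuous.comp (hcont (fun t => P2 (W t x)) (P2.continuous.comp (hct x)))
    have e2 : Continuous fun t : ℝ =>
        W t (inj (ml μ (fun x => g' (v (-t) x)) (P2 (W (-t) x)))) :=
      hct2 _ (e1.comp continuous_neg)
    have e3 := (e2.comp continuous_neg).neg
    simp only [Function.comp_def, neg_neg] at e3
    exact e3
  obtain ⟨α, h0, h1⟩ := Pool.Agent.BEL.H69.pic
    (fun t x => -(W (-t) (inj (ml μ (fun x => g' (v t x)) (P2 (W t x)))))) K hLip hCont Y0
  exact ⟨α, h0, h1⟩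

end Pool.Agent.BEW.H88
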