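import Pool.Agent.BEW.StmtsS

/-!
# Squad BEW, row PTB: the eigenbasis
-/

set_option autoImplicit false

open MeasureTheory Filter Topology Set
open scoped InnerProductSpace ENNReal NNReal

namespace Pool.Agent.BEW.H88

theorem ptb_sum (m : ℕ) : ∑ r ∈ Finset.range m, 1 / ((r : ℝ) + 1) ^ 2 ≤ 2 - 1 / (m : ℝ) := by
  induction m with
  | zero => simp
  | succ n ih =>
    rw [Finset.sum_range_succ]
    by_cases hn : n = 0
    · subst hn
      norm_num
    · have hn0 : (0 : ℝ) < n := by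
        have : 0 < n := Nat.pos_of_ne_zero hn
        exact_mod_cast this
      have : 1 / ((n : ℝ) + 1) ^ 2 ≤ 1 / (n : ℝ) - 1 / ((n : ℝ) + 1) := by
        rw [div_sub_div _ _ (by positivity) (by positivity), div_le_div_iff₀ (by positivity) (by positivity)]
        nlinarith
      push_cast
      linarith

theorem ptb_sum2 (m : ℕ) : ∑ r ∈ Finset.range m, 1 / ((r : ℝ) + 1) ^ 2 ≤ 2 := by
  have h1 := ptb_sum m
  have h2 : 0 ≤ 1 / (m : ℝ) := by positivity
  linarith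

section

variable {H : Type} [NormedAddCommGroup H] [InnerProductSpace ℝ H]

theorem egn_smul {s : ℕ → H} {Bo : H →L[ℝ] H} {lam : ℝ} {x : H} (c : ℝ) (h : Egn s Bo lam x) :
    Egn s Bo lam (c • x) := by
  intro m
  have h1 := h m
  rw [map_smul, real_inner_smul_right, real_inner_smul_right]
  linear_combination c * h1

/-- eigenvectors with different eigenvalues are orthogonal -/
theorem egn_ort (s : HilbertBasis ℕ ℝ H) (Bo : H →L[ℝ] H)
    (hB : ∀ x y, ⟪Bo x, y⟫_ℝ = ⟪x, Bo y⟫_ℝ) {l1 l2 : ℝ} {x y : H}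
    (hx : Egn (fun m => s m) Bo l1 x) (hy : Egn (fun m => s m) Bo l2 y) (hl : l1 ≠ l2) :
    ⟪x, y⟫_ℝ = 0 := by
  have h1 := (s.hasSum_inner_mul_inner x y).mul_left (l1 - l2)
  have h2 := (s.hasSum_inner_mul_inner (Bo x) y).sub (s.hasSum_inner_mul_inner x (Bo y))
  have e : (fun i => (l1 - l2) * (⟪x, s i⟫_ℝ * ⟪s i, y⟫_ℝ)) =
      fun i => ⟪Bo x, s i⟫_ℝ * ⟪s i, y⟫_ℝ - ⟪x, s i⟫_ℝ * ⟪s i, Bo y⟫_ℝ := by
    funext i
    have h3 := hx i
    have h4 := hy i
    rw [real_inner_comm x (s i), real_inner_comm (Bo x) (s i)] at h3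
    simp only at h3 h4
    linear_combination (-⟪s i, y⟫_ℝ) * h3 + ⟪x, s i⟫_ℝ * h4
  rw [e] at h1
  have h5 := h1.unique h2
  rw [hB x y, sub_self] at h5
  rcases mul_eq_zero.1 h5 with h6 | h6
  · exact absurd (sub_eq_zero.1 h6) hl
  · exact h6

/-- the norm of `s + h` -/
theorem nrm_bd {s h : H} (hs : ‖s‖ = 1) (hsh : ⟪s, h⟫_ℝ = 0) :
    1 ≤ ‖s + h‖ ∧ ‖s + h‖ ≤ 1 + ‖h‖ ^ 2 / 2 := by
  have e : ‖s + h‖ ^ 2 = 1 + ‖h‖ ^ 2 := by
    have hhs : ⟪h, s⟫_ℝ = 0 := by
      rw [real_inner_comm]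
      exact hsh
    rw [← real_inner_self_eq_norm_sq, inner_add_left, inner_add_right, inner_add_right, hsh,
      hhs, real_inner_self_eq_norm_sq, real_inner_self_eq_norm_sq, hs]
    ring
  have h0 : 0 ≤ ‖s + h‖ := norm_nonneg _
  constructor
  · by_contra hc
    have hc2 := not_le.1 hc
    nlinarith [sq_nonneg ‖h‖]
  · by_contra hc
    have hc2 := not_le.1 hc
    nlinarith [sq_nonneg (‖h‖ ^ 2), sq_nonneg ‖h‖]

end

theorem ptb (pta : PtaStmt) : PtbStmt := by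
  intro H _ _ _ s Bo c0 ε hε hε1 hsym hBo
  choose h lam hsh hh hlam heg hsum using fun k => pta H s Bo c0 ε k hε hε1 hBo
  have hs1 : ∀ k, ‖s k‖ = 1 := fun k => s.orthonormal.1 k
  let N : ℕ → ℝ := fun k => ‖s k + h k‖
  have hN : ∀ k, 1 ≤ N k ∧ N k ≤ 1 + ‖h k‖ ^ 2 / 2 := fun k => nrm_bd (hs1 k) (hsh k)
  have hNpos : ∀ k, 0 < N k := fun k => lt_of_lt_of_le one_pos (hN k).1
  have hh2 : ∀ k, ‖h k‖ ≤ 2 * ε := by
    intro k
    refine (hh k).trans ?_
    apply div_le_self (by linarith)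
    have : (0 : ℝ) ≤ k := Nat.cast_nonneg _
    linarith
  let v : ℕ → H := fun k => (1 / N k) • (s k + h k)
  have hv1 : ∀ k, ‖v k‖ = 1 := by
    intro k
    show ‖(1 / N k) • (s k + h k)‖ = 1
    rw [norm_smul, Real.norm_eq_abs, abs_of_pos (by have := hNpos k; positivity)]
    show 1 / N k * N k = 1
    rw [one_div, inv_mul_cancel₀ (hNpos k).ne']
  have hveg : ∀ k, Egn (fun m => s m) Bo (lam k) (v k) := fun k => egn_smul _ (heg k)
  have hlne : ∀ k l, k < l → lam k ≠ lam l := by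
    intro k l hkl he
    have h1 := abs_le.1 (hlam k)
    have h2 := abs_le.1 (hlam l)
    have h3 : (k : ℝ) + 1 ≤ l := by exact_mod_cast hkl
    have h4 : (0 : ℝ) ≤ k := Nat.cast_nonneg _
    have h5 : ((k : ℝ) + 1) ^ 2 + 3 ≤ ((l : ℝ) + 1) ^ 2 := by nlinarith
    rw [he] at h1
    linarith [h1.1, h1.2, h2.1, h2.2]
  have hort : Orthonormal ℝ v := by
    refine ⟨hv1, ?_⟩
    intro k l hkl
    apply egn_ort s Bo hsym (hveg k) (hveg l)
    rcases lt_or_gt_of_ne hkl with h | h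
    · exact hlne k l h
    · exact (hlne l k h).symm
  have hdiff : ∀ k, ‖s k - v k‖ ≤ 2 * ‖h k‖ := by
    intro k
    have e : s k - v k = -(h k) + (1 - 1 / N k) • (s k + h k) := by
      show s k - (1 / N k) • (s k + h k) = _
      rw [sub_smul, one_smul]
      abel
    rw [e]
    refine (norm_add_le _ _).trans ?_
    rw [norm_neg, norm_smul, Real.norm_eq_abs]
    have h1 : |1 - 1 / N k| * ‖s k + h k‖ = N k - 1 := by
      have h2 : 0 ≤ 1 - 1 / N k := by
        rw [sub_nonneg, div_le_one (hNpos k)]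
        exact (hN k).1
      rw [abs_of_nonneg h2]
      show (1 - 1 / N k) * N k = N k - 1
      rw [sub_mul, one_mul, one_div, inv_mul_cancel₀ (hNpos k).ne']
    rw [h1]
    have h3 := (hN k).2
    have h4 := hh2 k
    have h5 : 0 ≤ ‖h k‖ := norm_nonneg _
    nlinarith
  have hbot : (Submodule.span ℝ (Set.range v))ᗮ = ⊥ := by
    rw [Submodule.eq_bot_iff]
    intro f hf
    rw [Submodule.mem_orthogonal] at hf
    have hfv : ∀ k, ⟪v k, f⟫_ℝ = 0 := fun k => hf (v k) (Submodule.subset_span ⟨k, rfl⟩)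
    have h1 := s.hasSum_inner_mul_inner f f
    have hterm : ∀ k, ⟪f, s k⟫_ℝ * ⟪s k, f⟫_ℝ ≤ ‖f‖ ^ 2 * (16 * ε ^ 2) * (1 / ((k : ℝ) + 1) ^ 2) := by
      intro k
      have e1 : ⟪s k, f⟫_ℝ = ⟪s k - v k, f⟫_ℝ := by
        rw [inner_sub_left, hfv, sub_zero]
      have e2 : |⟪s k, f⟫_ℝ| ≤ 2 * ‖h k‖ * ‖f‖ := by
        rw [e1]
        refine (abs_real_inner_le_norm _ _).trans ?_
        exact mul_le_mul_of_nonneg_right (hdiff k) (norm_nonneg _)
      have e3 : ‖h k‖ ≤ 2 * ε / ((k : ℝ) + 1) := hh k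
      have hk : (0 : ℝ) < (k : ℝ) + 1 := by positivity
      have e4 : |⟪s k, f⟫_ℝ| ≤ 2 * (2 * ε / ((k : ℝ) + 1)) * ‖f‖ := by
        refine e2.trans ?_
        apply mul_le_mul_of_nonneg_right _ (norm_nonneg _)
        linarith
      rw [real_inner_comm]
      calc ⟪s k, f⟫_ℝ * ⟪s k, f⟫_ℝ = |⟪s k, f⟫_ℝ| ^ 2 := by rw [sq_abs, sq]
        _ ≤ (2 * (2 * ε / ((k : ℝ) + 1)) * ‖f‖) ^ 2 := pow_le_pow_left₀ (abs_nonneg _) e4 2
        _ = ‖f‖ ^ 2 * (16 * ε ^ 2) * (1 / ((k : ℝ) + 1) ^ 2) := by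
            field_simp
            ring
    have h2 : ⟪f, f⟫_ℝ ≤ ‖f‖ ^ 2 / 2 := by
      refine le_of_tendsto' h1.tendsto_sum_nat fun n => ?_
      refine (Finset.sum_le_sum fun k _ => hterm k).trans ?_
      rw [← Finset.mul_sum]
      have h3 := ptb_sum2 n
      have h4 : 0 ≤ ‖f‖ ^ 2 * (16 * ε ^ 2) := by positivity
      have h5 : ε ^ 2 ≤ 1 / 64 := by nlinarith
      have h6 : 0 ≤ ‖f‖ ^ 2 := sq_nonneg _
      calc ‖f‖ ^ 2 * (16 * ε ^ 2) * ∑ i ∈ Finset.range n, 1 / ((i : ℝ) + 1) ^ 2 ≤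
          ‖f‖ ^ 2 * (16 * ε ^ 2) * 2 := mul_le_mul_of_nonneg_left h3 h4
        _ ≤ ‖f‖ ^ 2 / 2 := by nlinarith
    rw [real_inner_self_eq_norm_sq] at h2
    have h3 : ‖f‖ ^ 2 = 0 := le_antisymm (by linarith) (sq_nonneg _)
    exact norm_eq_zero.1 (pow_eq_zero_iff (two_ne_zero)|>.1 h3)
  refine ⟨HilbertBasis.mkOfOrthogonalEqBot hort hbot, lam, hlam, ?_, ?_⟩
  · intro k
    rw [HilbertBasis.coe_mkOfOrthogonalEqBot]
    exact hveg k
  · intro k n
    rw [HilbertBasis.coe_mkOfOrthogonalEqBot]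
    have hNk := hN k
    have hinv : |1 / N k - 1| ≤ ε := by
      have e1 : 1 / N k ≤ 1 := by
        rw [div_le_one (hNpos k)]
        exact hNk.1
      have e2 : 1 - 1 / N k ≤ N k - 1 := by
        have e3 : 1 / N k * N k = 1 := by rw [one_div, inv_mul_cancel₀ (hNpos k).ne']
        have e4 : 0 < 1 / N k := by
          have := hNpos k
          positivity
        nlinarith [hNk.1]
      rw [abs_of_nonpos (by linarith)]
      have h4 := hh2 k
      have h5 : 0 ≤ ‖h k‖ := norm_nonneg _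
      nlinarith [hNk.2]
    have hterm : ∀ m ∈ Finset.range n, |⟪s m, v k⟫_ℝ - if m = k then 1 else 0| ≤
        (if m = k then ε else 0) + |⟪s m, h k⟫_ℝ| := by
      intro m _
      have e1 : ⟪s m, v k⟫_ℝ = 1 / N k * ((if m = k then 1 else 0) + ⟪s m, h k⟫_ℝ) := by
        show ⟪s m, (1 / N k) • (s k + h k)⟫_ℝ = _
        rw [real_inner_smul_right, inner_add_right]
        congr 2
        by_cases hmk : m = k
        · rw [if_pos hmk, hmk, real_inner_self_eq_norm_sq, hs1]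
          norm_num
        · rw [if_neg hmk]
          exact s.orthonormal.2 hmk
      have e2 : |1 / N k * ⟪s m, h k⟫_ℝ| ≤ |⟪s m, h k⟫_ℝ| := by
        rw [abs_mul]
        have e3 : |1 / N k| ≤ 1 := by
          rw [abs_of_pos (by have := hNpos k; positivity), div_le_one (hNpos k)]
          exact hNk.1
        calc |1 / N k| * |⟪s m, h k⟫_ℝ| ≤ 1 * |⟪s m, h k⟫_ℝ| :=
              mul_le_mul_of_nonneg_right e3 (abs_nonneg _)
          _ = |⟪s m, h k⟫_ℝ| := one_mul _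
      rw [e1]
      by_cases hmk : m = k
      · rw [if_pos hmk, if_pos hmk]
        have e4 : 1 / N k * (1 + ⟪s m, h k⟫_ℝ) - 1 = (1 / N k - 1) + 1 / N k * ⟪s m, h k⟫_ℝ := by
          ring
        rw [e4]
        exact (abs_add_le _ _).trans (add_le_add hinv e2)
      · rw [if_neg hmk, if_neg hmk, zero_add, sub_zero, zero_add]
        exact e2
    refine (Finset.sum_le_sum hterm).trans ?_
    rw [Finset.sum_add_distrib]
    have h6 : ∑ m ∈ Finset.range n, (if m = k then ε else 0) ≤ ε := by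
      rw [Finset.sum_ite_eq']
      split_ifs
      · exact le_rfl
      · exact hε
    have h7 := hsum k n
    linarith

end Pool.Agent.BEW.H88
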